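import Mathlib
import Pool.Agent.MP_c76eb3_co.Defs
import Pool.Agent.MP_c76eb3_co.Bridge

set_option autoImplicit false

open Pool.Agent.MP_c76eb3_co

namespace Pool.Agent.Results.MP_c76eb3_co.Rigid

theorem result (f : ShiftedSYT ≃ ShiftedSYT)
    (hf : ∀ T T' : ShiftedSYT, IsChild T T' → IsChild (f T) (f T') ∨ IsChild (f T') (f T)) :
    ∀ T : ShiftedSYT, f T = T :=
  rigid f hf

end Pool.Agent.Results.MP_c76eb3_co.Rigid
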